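import Pool.Agent.Helper18.KSZ.NSpec

/-!
Project KSZ, module N13: density with multiplicities.
-/

set_option autoImplicit false

open Finset

namespace Pool.Agent.Helper94.KSZ

open Pool.Agent.Helper18.KSZ

/-- a maximal spaced subset -/
theorem exists_maximal_spaced (Z : Finset ℂ) (δ : ℝ) :
    ∃ G ⊆ Z, (∀ ρ ∈ G, ∀ ρ' ∈ G, ρ ≠ ρ' → δ ≤ |ρ.im - ρ'.im|) ∧
      ∀ ρ ∈ Z, ρ ∈ G ∨ ∃ g ∈ G, |ρ.im - g.im| < δ := by
  classical
  let P : Finset (Finset ℂ) := Z.powerset.filter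
    (fun G => ∀ ρ ∈ G, ∀ ρ' ∈ G, ρ ≠ ρ' → δ ≤ |ρ.im - ρ'.im|)
  have hP : P.Nonempty := ⟨∅, by simp [P]⟩
  obtain ⟨G, hG, hmax⟩ := P.exists_max_image Finset.card hP
  simp only [P, mem_filter, mem_powerset] at hG hmax
  refine ⟨G, hG.1, hG.2, fun ρ hρ => ?_⟩
  by_contra hcon
  push Not at hcon
  obtain ⟨h1, h2⟩ := hcon
  have h3 := hmax (insert ρ G) ⟨insert_subset hρ hG.1, ?_⟩
  · rw [card_insert_of_notMem h1] at h3
    omega
  · intro a ha b hb hab
    rw [mem_insert] at ha hb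
    rcases ha with rfl | ha <;> rcases hb with rfl | hb
    · exact absurd rfl hab
    · exact h2 b hb
    · rw [abs_sub_comm]
      exact h2 a ha
    · exact hG.2 a ha b hb hab

theorem sum_biUnion_le_sum {α β : Type*} [DecidableEq α] [DecidableEq β] (s : Finset α)
    (t : α → Finset β) (f : β → ℝ) (hf : ∀ b, 0 ≤ f b) :
    ∑ b ∈ s.biUnion t, f b ≤ ∑ a ∈ s, ∑ b ∈ t a, f b := by
  induction s using Finset.induction_on with
  | empty => simp
  | insert a s ha ih =>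
    rw [biUnion_insert, sum_insert ha]
    have h1 := Finset.sum_union_inter (s₁ := t a) (s₂ := s.biUnion t) (f := f)
    have h2 : 0 ≤ ∑ b ∈ t a ∩ s.biUnion t, f b := Finset.sum_nonneg fun b _ => hf b
    linarith

theorem mz_nonneg (ρ : ℂ) : 0 ≤ mz ρ := Nat.cast_nonneg _

/-- N13 -/
theorem densityM (h9 : InA9) (h : Density) : DensityM := by
  classical
  obtain ⟨C9, hC9, h9⟩ := h9
  obtain ⟨ε, C, X0, hε, hC, h⟩ := h
  refine ⟨min ε (1 / 20), 5 * C * C9, max X0 16, by positivity, by positivity, ?_⟩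
  intro X hX c hc1 hc2 Z hZ
  have hX0 : X0 ≤ X := (le_max_left _ _).trans hX
  have hX16 : 16 ≤ X := (le_max_right _ _).trans hX
  have hXp : 0 < X := by linarith
  have hL1 : 1 ≤ Real.log X := by
    have h1 : Real.log 16 ≤ Real.log X := Real.log_le_log (by norm_num) hX16
    have h2 : Real.log 16 = 4 * Real.log 2 := by
      rw [show (16 : ℝ) = 2 ^ 4 by norm_num, Real.log_pow]
      norm_num
    have h3 : 0.6931471803 < Real.log 2 := Real.log_two_gt_d9
    linarith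
  set L := Real.log X with hL
  have hLp : 0 < L := by linarith
  have hc3 : c ≤ ε * L := hc2.trans (mul_le_mul_of_nonneg_right (min_le_left _ _) hLp.le)
  have hc4 : c ≤ 1 / 20 * L := hc2.trans (mul_le_mul_of_nonneg_right (min_le_right _ _) hLp.le)
  obtain ⟨G, hGZ, hG1, hG2⟩ := exists_maximal_spaced Z (1 / L)
  have hcard : (G.card : ℝ) ≤ C * c ^ 5 * Real.exp (c / 2) :=
    h X hX0 c hc1 hc3 G (fun ρ hρ => hZ ρ (hGZ hρ)) hG1
  have hX3 : 2 ≤ X ^ (3 / 10 : ℝ) := by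
    calc (2 : ℝ) ≤ (16 : ℝ) ^ (3 / 10 : ℝ) := by
          rw [show (16 : ℝ) = (2 : ℝ) ^ (4 : ℝ) by norm_num, ← Real.rpow_mul (by norm_num)]
          calc (2 : ℝ) = (2 : ℝ) ^ (1 : ℝ) := by norm_num
            _ ≤ (2 : ℝ) ^ ((4 : ℝ) * (3 / 10)) :=
              Real.rpow_le_rpow_of_exponent_le (by norm_num) (by norm_num)
      _ ≤ X ^ (3 / 10 : ℝ) := Real.rpow_le_rpow (by norm_num) hX16 (by norm_num)
  have hX6 : X ^ (6 / 10 : ℝ) ≤ X := by
    calc X ^ (6 / 10 : ℝ) ≤ X ^ (1 : ℝ) :=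
          Real.rpow_le_rpow_of_exponent_le (by linarith) (by norm_num)
      _ = X := Real.rpow_one X
  have hcL : 0 < c / L := by positivity
  have hr : 2 * c / L ≤ 1 / 10 := by
    rw [div_le_iff₀ hLp]
    linarith
  -- the contribution of the points near g
  have hg : ∀ g ∈ G, ∑ ρ ∈ Z.filter (fun ρ => |ρ.im - g.im| < 1 / L), mz ρ ≤ 5 * C9 * c := by
    intro g hgG
    obtain ⟨_, _, hg3, hg6⟩ := hZ g (hGZ hgG)
    have h1 := h9 g.im (2 * c / L) (hX3.trans hg3) (by positivity) hr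
      (Z.filter (fun ρ => |ρ.im - g.im| < 1 / L)) ?_
    · refine h1.trans ?_
      have h2 : Real.log (|g.im| + 2) ≤ 2 * L := by
        have h3 : |g.im| + 2 ≤ X ^ 2 := by
          have := hg6.trans hX6
          nlinarith
        have h4 := Real.log_le_log (by positivity) h3
        rw [Real.log_pow] at h4
        exact_mod_cast h4
      have h5 : 2 * c / L * Real.log (|g.im| + 2) ≤ 4 * c := by
        calc 2 * c / L * Real.log (|g.im| + 2) ≤ 2 * c / L * (2 * L) :=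
              mul_le_mul_of_nonneg_left h2 (by positivity)
          _ = 4 * c := by field_simp; ring
      nlinarith
    · intro ρ hρ
      rw [mem_filter] at hρ
      obtain ⟨hρ0, hρ1, _, _⟩ := hZ ρ hρ.1
      refine ⟨hρ0, ?_⟩
      have h2 : ρ.re < 1 := by
        by_contra h3
        exact riemannZeta_ne_zero_of_one_le_re (not_lt.1 h3) hρ0
      have h4 := Complex.norm_le_abs_re_add_abs_im (ρ - (1 + (g.im : ℂ) * Complex.I))
      have h5 : (ρ - (1 + (g.im : ℂ) * Complex.I)).re = ρ.re - 1 := by simp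
      have h6 : (ρ - (1 + (g.im : ℂ) * Complex.I)).im = ρ.im - g.im := by simp
      rw [h5, h6, abs_of_neg (by linarith)] at h4
      have h7 : 1 / L ≤ c / L := div_le_div_of_nonneg_right hc1 hLp.le
      have h8 : 2 * c / L = c / L + c / L := by ring
      linarith [hρ.2]
  have hcov : Z ⊆ G.biUnion (fun g => Z.filter (fun ρ => |ρ.im - g.im| < 1 / L)) := by
    intro ρ hρ
    rw [mem_biUnion]
    rcases hG2 ρ hρ with h1 | ⟨g, hg1, hg2⟩
    · exact ⟨ρ, h1, mem_filter.2 ⟨hρ, by rw [sub_self, abs_zero]; positivity⟩⟩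
    · exact ⟨g, hg1, mem_filter.2 ⟨hρ, hg2⟩⟩
  calc ∑ ρ ∈ Z, mz ρ
      ≤ ∑ ρ ∈ G.biUnion (fun g => Z.filter (fun ρ => |ρ.im - g.im| < 1 / L)), mz ρ :=
        Finset.sum_le_sum_of_subset_of_nonneg hcov fun ρ _ _ => mz_nonneg ρ
    _ ≤ ∑ g ∈ G, ∑ ρ ∈ Z.filter (fun ρ => |ρ.im - g.im| < 1 / L), mz ρ :=
        sum_biUnion_le_sum _ _ _ mz_nonneg
    _ ≤ ∑ _g ∈ G, 5 * C9 * c := Finset.sum_le_sum hg
    _ = G.card * (5 * C9 * c) := by rw [sum_const, nsmul_eq_mul]
    _ ≤ (C * c ^ 5 * Real.exp (c / 2)) * (5 * C9 * c) :=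
        mul_le_mul_of_nonneg_right hcard (by positivity)
    _ = 5 * C * C9 * c ^ 6 * Real.exp (c / 2) := by ring

end Pool.Agent.Helper94.KSZ
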