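import Pool.Agent.Helper18.KSZ.NSpec

/-!
Project KSZ, module N5: exponential sums over long ranges.
-/

set_option autoImplicit false

open Finset

namespace Pool.Agent.Helper94.KSZ

open Pool.Agent.Helper18.KSZ

/-- Abel summation with decreasing weights -/
theorem abel_bound (a : ℕ → ℝ) (b : ℕ → ℂ) (N : ℕ) (B : ℝ) (N1 : ℕ) (hN : N < N1)
    (ha : ∀ n, N < n → n < N1 → a (n + 1) ≤ a n) (ha0 : ∀ n, N < n → n ≤ N1 → 0 ≤ a n)
    (hB : ∀ k, N < k → k ≤ N1 → ‖∑ n ∈ Ioc N k, b n‖ ≤ B) :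
    ‖∑ n ∈ Ioc N N1, (a n : ℂ) * b n‖ ≤ a (N + 1) * B := by
  have key : ∀ k, N + 1 ≤ k → k ≤ N1 →
      ‖∑ n ∈ Ioc N k, (a n : ℂ) * b n - (a k : ℂ) * ∑ n ∈ Ioc N k, b n‖ ≤
        (a (N + 1) - a k) * B := by
    intro k hk
    induction k, hk using Nat.le_induction with
    | base =>
      intro _
      simp
    | succ k hk ih =>
      intro hk1
      have h1 := ih (by omega)
      have h2 : ∑ n ∈ Ioc N (k + 1), (a n : ℂ) * b n - (a (k + 1) : ℂ) * ∑ n ∈ Ioc N (k + 1), b n =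
          (∑ n ∈ Ioc N k, (a n : ℂ) * b n - (a k : ℂ) * ∑ n ∈ Ioc N k, b n) +
            ((a k - a (k + 1) : ℝ) : ℂ) * ∑ n ∈ Ioc N k, b n := by
        rw [Finset.sum_Ioc_succ_top (by omega), Finset.sum_Ioc_succ_top (by omega)]
        push_cast
        ring
      rw [h2]
      refine (norm_add_le _ _).trans ?_
      have h3 := ha k (by omega) (by omega)
      have h4 : ‖((a k - a (k + 1) : ℝ) : ℂ) * ∑ n ∈ Ioc N k, b n‖ ≤ (a k - a (k + 1)) * B := by
        rw [norm_mul, Complex.norm_real, Real.norm_of_nonneg (by linarith)]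
        exact mul_le_mul_of_nonneg_left (hB k (by omega) (by omega)) (by linarith)
      linarith
  have h1 := key N1 hN le_rfl
  have h2 : ‖(a N1 : ℂ) * ∑ n ∈ Ioc N N1, b n‖ ≤ a N1 * B := by
    rw [norm_mul, Complex.norm_real, Real.norm_of_nonneg (ha0 N1 hN le_rfl)]
    exact mul_le_mul_of_nonneg_left (hB N1 hN le_rfl) (ha0 N1 hN le_rfl)
  have h3 : ∑ n ∈ Ioc N N1, (a n : ℂ) * b n =
      (∑ n ∈ Ioc N N1, (a n : ℂ) * b n - (a N1 : ℂ) * ∑ n ∈ Ioc N N1, b n) +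
        (a N1 : ℂ) * ∑ n ∈ Ioc N N1, b n := by ring
  rw [h3]
  refine (norm_add_le _ _).trans ?_
  linarith

/-- dyadic decomposition -/
theorem dyadic_bound (f : ℕ → ℂ) (B : ℝ) (hB : 0 ≤ B) (M' : ℕ) (P : ℕ → Prop)
    (hP : ∀ N, P N → P (2 * N))
    (hblock : ∀ N N1, P N → N < N1 → N1 ≤ 2 * N → N1 ≤ M' → ‖∑ n ∈ Ioc N N1, f n‖ ≤ B) :
    ∀ k : ℕ, ∀ M, P M → M ≤ M' → M' ≤ 2 ^ k * M → ‖∑ n ∈ Ioc M M', f n‖ ≤ k * B := by
  intro k
  induction k with
  | zero =>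
    intro M _ h1 h2
    have : M = M' := by
      rw [pow_zero, one_mul] at h2
      omega
    subst this
    simp
  | succ k ih =>
    intro M hM h1 h2
    rcases Nat.eq_or_lt_of_le h1 with h3 | h3
    · subst h3
      simp only [Finset.Ioc_self, Finset.sum_empty, norm_zero]
      positivity
    rcases le_total M' (2 * M) with h4 | h4
    · have := hblock M M' hM h3 h4 le_rfl
      push_cast
      nlinarith [this, (Nat.cast_nonneg k : (0 : ℝ) ≤ k)]
    · have h5 : ∑ n ∈ Ioc M M', f n = ∑ n ∈ Ioc M (2 * M), f n + ∑ n ∈ Ioc (2 * M) M', f n := by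
        rw [Finset.sum_Ioc_consecutive _ (by omega) h4]
      rw [h5]
      refine (norm_add_le _ _).trans ?_
      have h6 := ih (2 * M) (hP M hM) h4 (by rw [pow_succ] at h2; nlinarith)
      have h7 : ‖∑ n ∈ Ioc M (2 * M), f n‖ ≤ B := by
        rcases Nat.eq_zero_or_pos M with h8 | h8
        · subst h8
          simpa using hB
        · exact hblock M (2 * M) hM (by omega) le_rfl h4
      push_cast
      linarith

theorem norm_conj_sum (S : Finset ℕ) (σ t : ℝ) :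
    ‖∑ n ∈ S, (n : ℂ) ^ (-((σ : ℂ) + (t : ℂ) * Complex.I))‖ =
      ‖∑ n ∈ S, (n : ℂ) ^ (-((σ : ℂ) + ((-t : ℝ) : ℂ) * Complex.I))‖ := by
  rw [← Complex.norm_conj, map_sum]
  congr 1
  refine Finset.sum_congr rfl fun n _ => ?_
  have h1 : ((n : ℂ)).arg ≠ Real.pi := by
    rw [Complex.natCast_arg]
    exact Real.pi_pos.ne
  have h2 := Complex.cpow_conj (n : ℂ) (-((σ : ℂ) + (t : ℂ) * Complex.I)) h1
  rw [Complex.conj_natCast] at h2
  rw [← h2]
  congr 1
  simp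

theorem block_bound {c C : ℝ} (hc : 0 < c) (hC : 0 < C)
    (h3 : ∀ (N N1 : ℕ) (t : ℝ), 1 ≤ N → N < N1 → N1 ≤ 2 * N → (N : ℝ) ^ (1 / (800 : ℝ)) ≤ t →
      t ≤ (N : ℝ) ^ (800 : ℝ) →
      ‖∑ n ∈ Ioc N N1, (n : ℂ) ^ (-((t : ℂ) * Complex.I))‖ ≤ C * (N : ℝ) ^ (1 - c))
    {X t σ : ℝ} (hX : 1 ≤ X) (ht1 : X ^ (1 / 200 : ℝ) ≤ t) (ht2 : t ≤ X ^ (61 / 100 : ℝ))
    (hσ : 1 - c / 2 ≤ σ) (hσ0 : 0 ≤ σ) (N N1 : ℕ) (hN : X ^ (3 / 200 : ℝ) ≤ N) (hN1 : N < N1)
    (hN2 : N1 ≤ 2 * N) (hN4 : (N : ℝ) ≤ X ^ (4 : ℝ)) :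
    ‖∑ n ∈ Ioc N N1, (n : ℂ) ^ (-((σ : ℂ) + (t : ℂ) * Complex.I))‖ ≤
      C * X ^ (-(3 * c / 400)) := by
  have hX0 : (0 : ℝ) < X := by linarith
  have hN0 : (1 : ℝ) ≤ N := (Real.one_le_rpow hX (by norm_num)).trans hN
  have hN0' : 1 ≤ N := by exact_mod_cast hN0
  have e1 : (N : ℝ) ^ (1 / (800 : ℝ)) ≤ t := by
    refine le_trans ?_ ht1
    calc (N : ℝ) ^ (1 / (800 : ℝ)) ≤ (X ^ (4 : ℝ)) ^ (1 / (800 : ℝ)) :=
          Real.rpow_le_rpow (by linarith) hN4 (by norm_num)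
      _ = X ^ (1 / 200 : ℝ) := by
          rw [← Real.rpow_mul hX0.le]
          norm_num
  have e2 : t ≤ (N : ℝ) ^ (800 : ℝ) := by
    refine ht2.trans ?_
    calc X ^ (61 / 100 : ℝ) ≤ X ^ (12 : ℝ) := Real.rpow_le_rpow_of_exponent_le hX (by norm_num)
      _ = (X ^ (3 / 200 : ℝ)) ^ (800 : ℝ) := by
          rw [← Real.rpow_mul hX0.le]
          norm_num
      _ ≤ (N : ℝ) ^ (800 : ℝ) := Real.rpow_le_rpow (by positivity) hN (by norm_num)
  have e3 : ∑ n ∈ Ioc N N1, (n : ℂ) ^ (-((σ : ℂ) + (t : ℂ) * Complex.I)) =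
      ∑ n ∈ Ioc N N1, (((n : ℝ) ^ (-σ) : ℝ) : ℂ) * (n : ℂ) ^ (-((t : ℂ) * Complex.I)) := by
    refine Finset.sum_congr rfl fun n hn => ?_
    rw [mem_Ioc] at hn
    have hn0 : (n : ℂ) ≠ 0 := by
      have : n ≠ 0 := by omega
      exact_mod_cast this
    rw [neg_add, Complex.cpow_add _ _ hn0, Complex.ofReal_cpow (by positivity)]
    simp
  rw [e3]
  have e4 := abel_bound (fun n => (n : ℝ) ^ (-σ)) (fun n => (n : ℂ) ^ (-((t : ℂ) * Complex.I))) N
    (C * (N : ℝ) ^ (1 - c)) N1 hN1 (fun n h1 _ => by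
      have h0 : (0 : ℝ) < n := by
        have : 0 < n := by omega
        exact_mod_cast this
      exact Real.rpow_le_rpow_of_nonpos h0 (by push_cast; linarith) (by linarith))
    (fun n _ _ => by positivity)
    (fun k h1 h2 => h3 N k t hN0' h1 (h2.trans hN2) e1 e2)
  refine e4.trans ?_
  have hNpos : (0 : ℝ) < N := by linarith
  have e5 : ((N + 1 : ℕ) : ℝ) ^ (-σ) ≤ (N : ℝ) ^ (-σ) :=
    Real.rpow_le_rpow_of_nonpos hNpos (by push_cast; linarith) (by linarith)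
  calc ((N + 1 : ℕ) : ℝ) ^ (-σ) * (C * (N : ℝ) ^ (1 - c))
      ≤ (N : ℝ) ^ (-σ) * (C * (N : ℝ) ^ (1 - c)) := mul_le_mul_of_nonneg_right e5 (by positivity)
    _ = C * (N : ℝ) ^ (-σ + (1 - c)) := by
        rw [Real.rpow_add hNpos]
        ring
    _ ≤ C * (N : ℝ) ^ (-(c / 2)) := by
        refine mul_le_mul_of_nonneg_left ?_ hC.le
        exact Real.rpow_le_rpow_of_exponent_le hN0 (by linarith)
    _ ≤ C * (X ^ (3 / 200 : ℝ)) ^ (-(c / 2)) := by
        refine mul_le_mul_of_nonneg_left ?_ hC.le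
        exact Real.rpow_le_rpow_of_nonpos (by positivity) hN (by linarith)
    _ = C * X ^ (-(3 * c / 400)) := by
        rw [← Real.rpow_mul hX0.le]
        congr 2
        ring

/-- N5 -/
theorem expSum (h : InA3) : ExpSum := by
  obtain ⟨c, C, hc, hC, h3⟩ := h 800 (by norm_num)
  have h0 : ∀ᶠ X : ℝ in Filter.atTop, (6 * Real.log X + 2) * C ≤ X ^ (3 * c / 800) := by
    have e1 : (fun X : ℝ => (6 * Real.log X + 2) * C) =o[Filter.atTop] fun X => X ^ (3 * c / 800) := by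
      have e2 : (fun X : ℝ => 6 * Real.log X) =o[Filter.atTop] fun X => X ^ (3 * c / 800) :=
        (isLittleO_log_rpow_atTop (by positivity)).const_mul_left 6
      have e3 : (fun _ : ℝ => (2 : ℝ)) =o[Filter.atTop] fun X => X ^ (3 * c / 800) := by
        refine Asymptotics.isLittleO_const_left.2 (Or.inr ?_)
        exact tendsto_norm_atTop_atTop.comp (tendsto_rpow_atTop (by positivity))
      have e4 := (e2.add e3).const_mul_left C
      refine e4.congr_left fun X => by ring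
    have e5 := e1.bound (c := 1) one_pos
    filter_upwards [e5, Filter.eventually_gt_atTop (0 : ℝ)] with X hX hX0
    rw [one_mul, Real.norm_of_nonneg (r := X ^ (3 * c / 800)) (by positivity)] at hX
    exact (le_abs_self _).trans hX
  obtain ⟨X0, hX0⟩ := Filter.eventually_atTop.1 (h0.and (Filter.eventually_ge_atTop 1))
  refine ⟨3 * c / 800, min (c / 2) 1, X0, by positivity, by positivity, ?_⟩
  -- the case of positive ordinates
  have pos : ∀ X : ℝ, X0 ≤ X → ∀ t : ℝ, X ^ (1 / 200 : ℝ) ≤ t → t ≤ X ^ (61 / 100 : ℝ) →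
      ∀ M M' : ℕ, X ^ (3 / 200 : ℝ) ≤ M → M ≤ M' → (M' : ℝ) ≤ X ^ (4 : ℝ) → ∀ σ : ℝ,
      1 - min (c / 2) 1 ≤ σ → σ ≤ 1 →
      ‖∑ n ∈ Ioc M M', (n : ℂ) ^ (-((σ : ℂ) + (t : ℂ) * Complex.I))‖ ≤ X ^ (-(3 * c / 800)) := by
    intro X hX t ht1 ht2 M M' hM hMM hM' σ hσ1 hσ2
    obtain ⟨hX1, hX2⟩ := hX0 X hX
    have hXp : (0 : ℝ) < X := by linarith
    have hσ3 : 1 - c / 2 ≤ σ := by
      have := min_le_left (c / 2) 1
      linarith
    have hσ4 : 0 ≤ σ := by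
      have := min_le_right (c / 2) 1
      linarith
    have hM1 : (1 : ℝ) ≤ M := (Real.one_le_rpow hX2 (by norm_num)).trans hM
    have hM1' : 1 ≤ M := by exact_mod_cast hM1
    have hk : M' ≤ 2 ^ Nat.clog 2 M' * M := by
      calc M' ≤ 2 ^ Nat.clog 2 M' := Nat.le_pow_clog (by norm_num) _
        _ ≤ 2 ^ Nat.clog 2 M' * M := Nat.le_mul_of_pos_right _ hM1'
    have h5 := dyadic_bound (fun n => (n : ℂ) ^ (-((σ : ℂ) + (t : ℂ) * Complex.I)))
      (C * X ^ (-(3 * c / 400))) (by positivity) M' (fun N => X ^ (3 / 200 : ℝ) ≤ N)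
      (fun N hN => by
        refine hN.trans ?_
        push_cast
        have := (Nat.cast_nonneg N : (0 : ℝ) ≤ N)
        linarith)
      (fun N N1 hN hN1 hN2 hN3 => block_bound hc hC h3 hX2 ht1 ht2 hσ3 hσ4 N N1 hN hN1 hN2 (by
        refine le_trans ?_ hM'
        exact_mod_cast (hN1.le.trans hN3)))
      (Nat.clog 2 M') M hM hMM hk
    refine h5.trans ?_
    have h6 : (Nat.clog 2 M' : ℝ) ≤ 6 * Real.log X + 2 := by
      rcases Nat.lt_or_ge 1 M' with h7 | h7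
      · have h8 : 2 ^ (Nat.clog 2 M' - 1) < M' := Nat.pow_pred_clog_lt_self (by norm_num) h7
        have h9 : (2 : ℝ) ^ (Nat.clog 2 M' - 1) < X ^ (4 : ℝ) := by
          refine lt_of_lt_of_le ?_ hM'
          exact_mod_cast h8
        have h10 := Real.log_lt_log (by positivity) h9
        rw [Real.log_pow, Real.log_rpow hXp] at h10
        have h11 : (Nat.clog 2 M' : ℝ) ≤ ((Nat.clog 2 M' - 1 : ℕ) : ℝ) + 1 := by
          have : Nat.clog 2 M' ≤ (Nat.clog 2 M' - 1) + 1 := by omega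
          exact_mod_cast this
        have h12 : 0.6931471803 < Real.log 2 := Real.log_two_gt_d9
        have h13 : 0 ≤ Real.log X := Real.log_nonneg hX2
        have h14 : (0 : ℝ) ≤ ((Nat.clog 2 M' - 1 : ℕ) : ℝ) := Nat.cast_nonneg _
        nlinarith
      · have h8 : Nat.clog 2 M' = 0 := Nat.clog_of_right_le_one h7 _
        rw [h8, Nat.cast_zero]
        have h13 : 0 ≤ Real.log X := Real.log_nonneg hX2
        linarith
    calc (Nat.clog 2 M' : ℝ) * (C * X ^ (-(3 * c / 400)))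
        ≤ (6 * Real.log X + 2) * (C * X ^ (-(3 * c / 400))) :=
          mul_le_mul_of_nonneg_right h6 (by positivity)
      _ = ((6 * Real.log X + 2) * C) * X ^ (-(3 * c / 400)) := by ring
      _ ≤ X ^ (3 * c / 800) * X ^ (-(3 * c / 400)) :=
          mul_le_mul_of_nonneg_right hX1 (by positivity)
      _ = X ^ (-(3 * c / 800)) := by
          rw [← Real.rpow_add hXp]
          congr 1
          ring
  intro X hX t ht1 ht2 M M' hM hMM hM' σ hσ1 hσ2
  rcases le_total 0 t with ht | ht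
  · rw [abs_of_nonneg ht] at ht1 ht2
    exact pos X hX t ht1 ht2 M M' hM hMM hM' σ hσ1 hσ2
  · rw [abs_of_nonpos ht] at ht1 ht2
    rw [norm_conj_sum]
    exact pos X hX (-t) ht1 ht2 M M' hM hMM hM' σ hσ1 hσ2

end Pool.Agent.Helper94.KSZ
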